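import Mathlib

/-!
# No base-edge pyramid cut of the cube

Every plane through an edge of the bottom face of the cube cuts off a product `K × [0,1]`, and a
product is never a pyramid. So for the cube and its bottom face no admissible cutting sequence leads
to any g-dome with that base.
-/

set_option autoImplicit false

namespace Pool.Agent.Results.MP_3a21c3_co.CubeNoCut

open Set

/-- real 3-space (the question only uses its affine and topological structure) -/
abbrev V := Fin 3 → ℝ

/-- A convex polyhedron: the convex hull of finitely many points, with nonempty interior. -/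
def IsPolyhedron (P : Set V) : Prop :=
  ∃ s : Set V, s.Finite ∧ P = convexHull ℝ s ∧ (interior P).Nonempty

/-- `F` is a nonempty face (exposed subset) of dimension `k` of the convex set `P`:
vertices are the faces with `k = 0`, edges `k = 1`, and the faces of a polyhedron `k = 2`. -/
def IsFaceDim (k : ℕ) (P F : Set V) : Prop :=
  IsExposed ℝ P F ∧ F.Nonempty ∧ Module.finrank ℝ (vectorSpan ℝ F) = k

/-- `D` is a g-dome with base `X`: a convex polyhedron with face `X`, each of whose other faces has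
an edge or a vertex in common with `X`. -/
def IsGDome (D X : Set V) : Prop :=
  IsPolyhedron D ∧ IsFaceDim 2 D X ∧ ∀ F, IsFaceDim 2 D F → F ≠ X →
    (∃ e, IsFaceDim 1 X e ∧ IsFaceDim 1 F e) ∨ (∃ v, IsFaceDim 0 X {v} ∧ IsFaceDim 0 F {v})

/-- `Q` is a pyramid: the convex hull of a convex polygon (the hull of a finite set `s` contained in
a plane `g = k`) and a point `a` outside that plane; it has nonempty interior (that is, the polygon
is not contained in a line). -/
def IsPyramid (Q : Set V) : Prop :=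
  (interior Q).Nonempty ∧ ∃ (s : Set V) (a : V) (g : V →L[ℝ] ℝ) (k : ℝ), s.Finite ∧
    (∀ x ∈ s, g x = k) ∧ g a ≠ k ∧ Q = convexHull ℝ (insert a s)

/-- One admissible cut, from `P'` to `P''`: the plane `f = c` contains an edge of `X` and does not
meet the interior of `D`, which lies in `f < c`; the closed part of `P'` on the other side of the
plane is a pyramid, and `P''` is the closure of the rest. -/
def Cut (X D P' P'' : Set V) : Prop :=
  ∃ (f : V →L[ℝ] ℝ) (c : ℝ), f ≠ 0 ∧ (∃ e, IsFaceDim 1 X e ∧ ∀ x ∈ e, f x = c) ∧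
    (∀ x ∈ interior D, f x < c) ∧ IsPyramid {x ∈ P' | c ≤ f x} ∧
    P'' = closure (P' \ {x ∈ P' | c ≤ f x})

/-! ### The cube -/

/-- the unit cube -/
def cube : Set V := {x | ∀ i, 0 ≤ x i ∧ x i ≤ 1}

/-- its bottom face -/
def bot : Set V := {x ∈ cube | x 2 = 0}

/-- vertices of the bottom face -/
def bv : Set V := {x | (x 0 = 0 ∨ x 0 = 1) ∧ (x 1 = 0 ∨ x 1 = 1) ∧ x 2 = 0}

lemma cube_convex : Convex ℝ cube := by
  intro x hx y hy s t hs ht hst i
  obtain ⟨h1, h2⟩ := hx i
  obtain ⟨h3, h4⟩ := hy i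
  simp only [Pi.add_apply, Pi.smul_apply, smul_eq_mul]
  constructor
  · positivity
  · nlinarith

lemma cube_eq : cube = convexHull ℝ {x : V | ∀ i, x i = 0 ∨ x i = 1} := by
  have h1 : ({x : V | ∀ i, x i = 0 ∨ x i = 1} : Set V) = Set.univ.pi fun _ => {0, 1} := by
    ext x; simp
  rw [h1, convexHull_pi]
  ext x
  simp only [cube, convexHull_pair, segment_eq_Icc zero_le_one, mem_ofPred_eq, Set.mem_pi, mem_univ,
    forall_true_left, mem_Icc]

lemma finite01 : ({x : V | ∀ i, x i = 0 ∨ x i = 1} : Set V).Finite := by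
  have h1 : ({x : V | ∀ i, x i = 0 ∨ x i = 1} : Set V) = Set.univ.pi fun _ => {0, 1} := by
    ext x; simp
  rw [h1]
  exact Set.Finite.pi fun _ => by simp

lemma lin_eq (f : V →L[ℝ] ℝ) (x : V) :
    f x = f (Pi.single 0 1) * x 0 + f (Pi.single 1 1) * x 1 + f (Pi.single 2 1) * x 2 := by
  have : x = x 0 • (Pi.single 0 1 : V) + x 1 • (Pi.single 1 1 : V) + x 2 • (Pi.single 2 1 : V) := by
    ext i; fin_cases i <;> simp
  conv_lhs => rw [this]
  simp only [map_add, map_smul, smul_eq_mul]
  ring

lemma cube_interior : (interior cube).Nonempty := by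
  refine ⟨fun _ => 1/2, ?_⟩
  rw [mem_interior]
  refine ⟨{x : V | ∀ i, 0 < x i ∧ x i < 1}, fun x hx i => ⟨(hx i).1.le, (hx i).2.le⟩, ?_, ?_⟩
  · have : {x : V | ∀ i, 0 < x i ∧ x i < 1} = ⋂ i, {x : V | 0 < x i ∧ x i < 1} := by
      ext x; simp
    rw [this]
    refine isOpen_iInter_of_finite fun i => ?_
    exact (isOpen_lt continuous_const (continuous_apply i)).inter
      (isOpen_lt (continuous_apply i) continuous_const)
  · intro i; norm_num

lemma cube_poly : IsPolyhedron cube := ⟨_, finite01, cube_eq, cube_interior⟩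

/-- the linear form `x ↦ x i` -/
noncomputable def co (i : Fin 3) : V →L[ℝ] ℝ := ContinuousLinearMap.proj i

@[simp] lemma co_apply (i : Fin 3) (x : V) : co i x = x i := rfl

/-- a horizontal set with three points in general position has dimension two -/
lemma finrank_horizontal (S : Set V) (h : ℝ) (hS : ∀ x ∈ S, x 2 = h) (p : V) (hp : p ∈ S)
    (h0 : p + Pi.single 0 1 ∈ S) (h1 : p + Pi.single 1 1 ∈ S) :
    Module.finrank ℝ (vectorSpan ℝ S) = 2 := by
  have e : vectorSpan ℝ S = LinearMap.ker (LinearMap.proj 2 : V →ₗ[ℝ] ℝ) := by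
    apply le_antisymm
    · rw [vectorSpan_def, Submodule.span_le]
      rintro _ ⟨x, hx, y, hy, rfl⟩
      simp [hS x hx, hS y hy]
    · intro v hv
      have hv2 : v 2 = 0 := hv
      have a0 : (Pi.single 0 1 : V) ∈ vectorSpan ℝ S := by
        have := vsub_mem_vectorSpan ℝ h0 hp
        simpa using this
      have a1 : (Pi.single 1 1 : V) ∈ vectorSpan ℝ S := by
        have := vsub_mem_vectorSpan ℝ h1 hp
        simpa using this
      have : v = v 0 • (Pi.single 0 1 : V) + v 1 • (Pi.single 1 1 : V) := by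
        ext i; fin_cases i <;> simp [hv2]
      rw [this]
      exact Submodule.add_mem _ (Submodule.smul_mem _ _ a0) (Submodule.smul_mem _ _ a1)
  rw [e]
  have h3 := LinearMap.finrank_range_add_finrank_ker (LinearMap.proj 2 : V →ₗ[ℝ] ℝ)
  have h4 : LinearMap.range (LinearMap.proj 2 : V →ₗ[ℝ] ℝ) = ⊤ :=
    LinearMap.range_eq_top.2 (LinearMap.proj_surjective 2)
  rw [h4, finrank_top] at h3
  simp at h3
  omega

lemma bot_face : IsFaceDim 2 cube bot := by
  refine ⟨fun _ => ⟨-co 2, ?_⟩, ⟨0, ?_⟩, ?_⟩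
  · ext x
    simp only [bot, mem_ofPred_eq, neg_apply, co_apply]
    constructor
    · rintro ⟨h1, h2⟩
      exact ⟨h1, fun y hy => by rw [h2]; linarith [(hy 2).1]⟩
    · rintro ⟨h1, h2⟩
      refine ⟨h1, ?_⟩
      have h3 := h2 0 (fun i => by simp)
      have h4 := (h1 2).1
      simp only [Pi.zero_apply] at h3
      linarith
  · exact ⟨fun i => by simp, rfl⟩
  · refine finrank_horizontal bot 0 (fun x hx => hx.2) 0 ⟨fun i => by simp, rfl⟩ ?_ ?_
    · refine ⟨fun i => ?_, by simp⟩
      fin_cases i <;> simp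
    · refine ⟨fun i => ?_, by simp⟩
      fin_cases i <;> simp

/-- the top face -/
def top : Set V := {x ∈ cube | x 2 = 1}

lemma top_face : IsFaceDim 2 cube top := by
  have e2 : (Pi.single 2 1 : V) ∈ top := by
    refine ⟨fun i => ?_, by simp⟩
    fin_cases i <;> simp
  refine ⟨fun _ => ⟨co 2, ?_⟩, ⟨_, e2⟩, ?_⟩
  · ext x
    simp only [top, mem_ofPred_eq, co_apply]
    constructor
    · rintro ⟨h1, h2⟩
      exact ⟨h1, fun y hy => by rw [h2]; exact (hy 2).2⟩
    · rintro ⟨h1, h2⟩
      refine ⟨h1, ?_⟩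
      have h3 := h2 _ e2.1
      have h4 := (h1 2).2
      simp only [Pi.single_eq_same] at h3
      linarith
  · refine finrank_horizontal top 1 (fun x hx => hx.2) _ e2 ?_ ?_
    · refine ⟨fun i => ?_, by simp⟩
      fin_cases i <;> simp
    · refine ⟨fun i => ?_, by simp⟩
      fin_cases i <;> simp

/-- the cube itself is not a g-dome over its bottom face -/
lemma cube_not_gdome : ¬ IsGDome cube bot := by
  rintro ⟨-, -, h⟩
  have hne : top ≠ bot := by
    intro h
    obtain ⟨-, ⟨x, hx⟩, -⟩ := top_face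
    have h1 := hx.2
    rw [h] at hx
    have h2 := hx.2
    linarith
  have hdis : ∀ x, x ∈ bot → x ∈ top → False := by
    intro x h1 h2
    have a := h1.2
    have b := h2.2
    linarith
  rcases h top top_face hne with ⟨e, he1, he2⟩ | ⟨v, hv1, hv2⟩
  · obtain ⟨x, hx⟩ := he1.2.1
    exact hdis x (he1.1.subset hx) (he2.1.subset hx)
  · exact hdis v (hv1.1.subset rfl) (hv2.1.subset rfl)

/-! ### Plane sections -/

/-- a hyperplane has empty interior -/
lemma hyper (Q : Set V) (f : V →L[ℝ] ℝ) (hf : f ≠ 0) (c : ℝ) (h : ∀ x ∈ Q, f x = c) :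
    ¬ (interior Q).Nonempty := by
  rintro ⟨x, hx⟩
  have hsurj : Function.Surjective f := by
    have : ∃ v, f v ≠ 0 := by
      by_contra hcon
      push Not at hcon
      exact hf (ContinuousLinearMap.ext hcon)
    obtain ⟨v, hv⟩ := this
    intro r
    exact ⟨(r / f v) • v, by simp [hv]⟩
  have hopen := f.isOpenMap hsurj _ (isOpen_interior (s := Q))
  have hsub : f '' interior Q = {c} := by
    apply Subset.antisymm
    · rintro _ ⟨y, hy, rfl⟩
      exact h y (interior_subset hy)
    · rintro _ rfl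
      exact ⟨x, hx, h x (interior_subset hx)⟩
  rw [hsub] at hopen
  exact not_isOpen_singleton c hopen

/-- a pyramid whose intersection with every line parallel to `e_j` is long has no two disjoint
pairs of extreme points differing by `e_j` -/
lemma not_pyramid (Q : Set V) (j : Fin 3)
    (hfib : ∀ a ∈ Q, ∃ a' ∈ Q, ∃ r : ℝ, r ≠ 0 ∧ a' = a + r • (Pi.single j 1 : V))
    (p q : V) (hpq : p ≠ q) (hpq' : p ≠ q + Pi.single j 1) (hpq'' : q ≠ p + Pi.single j 1)
    (hp : p ∈ Q.extremePoints ℝ) (hp' : p + Pi.single j 1 ∈ Q.extremePoints ℝ)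
    (hq : q ∈ Q.extremePoints ℝ) (hq' : q + Pi.single j 1 ∈ Q.extremePoints ℝ) :
    ¬ IsPyramid Q := by
  rintro ⟨-, s, a, g, k, -, hs, ha, rfl⟩
  have key : ∀ x ∈ (convexHull ℝ (insert a s)).extremePoints ℝ, x = a ∨ g x = k := by
    intro x hx
    rcases extremePoints_convexHull_subset hx with h | h
    · exact Or.inl h
    · exact Or.inr (hs x h)
  have hg : g (Pi.single j 1) = 0 := by
    rcases key p hp with h1 | h1
    · rcases key q hq with h2 | h2
      · exact absurd (h1.trans h2.symm) hpq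
      · rcases key _ hq' with h3 | h3
        · exact absurd (h1.trans h3.symm) hpq'
        · rw [map_add, h2] at h3; linarith
    · rcases key _ hp' with h2 | h2
      · rcases key q hq with h3 | h3
        · exact absurd (h3.trans h2.symm) hpq''
        · rcases key _ hq' with h4 | h4
          · have : p + Pi.single j 1 = q + Pi.single j 1 := h2.trans h4.symm
            exact absurd (add_right_cancel this) hpq
          · rw [map_add, h3] at h4; linarith
      · rw [map_add, h1] at h2; linarith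
  have haQ : a ∈ convexHull ℝ (insert a s) := subset_convexHull ℝ _ (mem_insert _ _)
  obtain ⟨a', ha', r, hr, rfl⟩ := hfib a haQ
  have hne : s.Nonempty := by
    by_contra hcon
    rw [not_nonempty_iff_eq_empty] at hcon
    subst hcon
    simp at ha'
    exact hr ha'
  rw [convexHull_insert hne, mem_convexJoin] at ha'
  obtain ⟨b, hb, y, hy, hseg⟩ := ha'
  have hb' : b = a := hb
  subst hb'
  have hgy : g y = k := by
    have hconv : Convex ℝ {x : V | g x = k} := by
      intro u hu v hv m n hm hn hmn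
      have hu' : g u = k := hu
      have hv' : g v = k := hv
      show g (m • u + n • v) = k
      rw [map_add, map_smul, map_smul, hu', hv', smul_eq_mul, smul_eq_mul, ← add_mul, hmn, one_mul]
    exact convexHull_min (fun x hx => hs x hx) hconv hy
  obtain ⟨m, n, hm, hn, hmn, he⟩ := hseg
  have h1 := congrArg g he
  rw [map_add, map_smul, map_smul, map_add, map_smul, hg, hgy] at h1
  simp only [smul_eq_mul, mul_zero, add_zero] at h1
  have h2 : n * (k - g b) = 0 := by
    have : m = 1 - n := by linarith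
    subst this
    linarith
  rcases mul_eq_zero.1 h2 with h3 | h3
  · subst h3
    have hm1 : m = 1 := by linarith
    subst hm1
    simp at he
    exact hr he
  · exact ha (by linarith)

/-- points of the cube used below -/
def vv (i j : Fin 3) (e y z : ℝ) : V := fun k => if k = i then e else if k = j then y else z

lemma extreme01 (x : V) (hx : ∀ i, x i = 0 ∨ x i = 1) : x ∈ cube.extremePoints ℝ := by
  refine ⟨fun i => by rcases hx i with h | h <;> rw [h] <;> norm_num, ?_⟩
  rintro y hy z hz ⟨m, n, hm, hn, hmn, rfl⟩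
  have hy' : ∀ i, y i = (m • y + n • z) i := by
    intro i
    have h1 := hy i
    have h2 := hz i
    have h3 := hx i
    simp only [Pi.add_apply, Pi.smul_apply, smul_eq_mul] at h3 ⊢
    rcases h3 with h3 | h3
    · rw [h3]
      have : 0 ≤ n * z i := mul_nonneg hn.le h2.1
      have : m * y i ≤ 0 := by linarith
      have : y i ≤ 0 := by
        by_contra hcon
        push Not at hcon
        have := mul_pos hm hcon
        linarith
      linarith
    · rw [h3]
      have e1 : m * (1 - y i) + n * (1 - z i) = 0 := by nlinarith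
      have e2 : 0 ≤ n * (1 - z i) := mul_nonneg hn.le (by linarith)
      have e3 : m * (1 - y i) ≤ 0 := by linarith
      by_contra hcon
      have e4 : 0 < 1 - y i := by
        rcases lt_or_eq_of_le h1.2 with h | h
        · linarith
        · exact absurd h hcon
      have := mul_pos hm e4
      linarith
  exact funext hy'

lemma extreme_sub {Q P : Set V} (h : Q ⊆ P) {x : V} (hx : x ∈ P.extremePoints ℝ) (hxQ : x ∈ Q) :
    x ∈ Q.extremePoints ℝ :=
  ⟨hxQ, fun _ hy _ hz hxyz => hx.2 (h hy) (h hz) hxyz⟩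

/-- a plane parallel to `e_j`, through an edge of the bottom face, does not cut off a pyramid -/
lemma noCut_dir (i j : Fin 3) (hi2 : i ≠ 2) (hj2 : j ≠ 2) (hij : i ≠ j) (f : V →L[ℝ] ℝ) (c : ℝ)
    (hfj : f (Pi.single j 1) = 0) (hfi : f (Pi.single i 1) ≠ 0)
    (hX : ∀ x ∈ bot, f x ≤ c) (he : ∃ x ∈ bot, f x = c) :
    ¬ IsPyramid {x ∈ cube | c ≤ f x} := by
  have hf : ∀ x, f x = f (Pi.single i 1) * x i + f (Pi.single 2 1) * x 2 := by
    intro x
    rw [lin_eq f x]
    fin_cases i <;> fin_cases j <;> simp_all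
  obtain ⟨α, hα⟩ : ∃ α, α = f (Pi.single i 1) := ⟨_, rfl⟩
  obtain ⟨γ, hγ⟩ : ∃ γ, γ = f (Pi.single 2 1) := ⟨_, rfl⟩
  rw [← hα] at hf hfi
  rw [← hγ] at hf
  have hf0 : f ≠ 0 := by
    intro h
    rw [h] at hα
    exact hfi (by simpa using hα)
  have vi : ∀ e y z, (vv i j e y z) i = e := by intro e y z; simp [vv]
  have v2 : ∀ e y z, (vv i j e y z) 2 = z := by
    intro e y z; simp [vv, hi2.symm, hj2.symm]
  have v01 : ∀ e y z : ℝ, (e = 0 ∨ e = 1) → (y = 0 ∨ y = 1) → (z = 0 ∨ z = 1) →
      ∀ k, (vv i j e y z) k = 0 ∨ (vv i j e y z) k = 1 := by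
    intro e y z h1 h2 h3 k
    simp only [vv]
    split_ifs <;> assumption
  have vcube : ∀ e y z : ℝ, (e = 0 ∨ e = 1) → (y = 0 ∨ y = 1) → (z = 0 ∨ z = 1) →
      vv i j e y z ∈ cube := fun e y z h1 h2 h3 => (extreme01 _ (v01 e y z h1 h2 h3)).1
  -- the value of `c`
  obtain ⟨ε, hε, hc⟩ : ∃ ε : ℝ, (ε = 0 ∨ ε = 1) ∧ c = α * ε ∧ ∀ t, 0 ≤ t → t ≤ 1 → α * t ≤ c := by
    obtain ⟨p, hp, hpc⟩ := he
    have hp2 := hp.2
    have hpi := hp.1 i
    rw [hf, hp2, mul_zero, add_zero] at hpc
    have b0 : α * 0 ≤ c := by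
      have := hX (vv i j 0 0 0) ⟨vcube _ _ _ (Or.inl rfl) (Or.inl rfl) (Or.inl rfl), v2 _ _ _⟩
      rw [hf, vi, v2] at this; linarith
    have b1 : α * 1 ≤ c := by
      have := hX (vv i j 1 0 0) ⟨vcube _ _ _ (Or.inr rfl) (Or.inl rfl) (Or.inl rfl), v2 _ _ _⟩
      rw [hf, vi, v2] at this; linarith
    rcases lt_or_gt_of_ne hfi with h | h
    · refine ⟨0, Or.inl rfl, ?_, ?_⟩
      · have := mul_nonpos_of_nonpos_of_nonneg h.le hpi.1
        linarith
      · intro t h0 h1
        have := mul_nonpos_of_nonpos_of_nonneg h.le h0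
        linarith
    · refine ⟨1, Or.inr rfl, ?_, ?_⟩
      · have := mul_le_mul_of_nonneg_left hpi.2 h.le
        linarith
      · intro t h0 h1
        have := mul_le_mul_of_nonneg_left h1 h.le
        linarith
  obtain ⟨hc, hmax⟩ := hc
  rcases le_or_gt γ 0 with hγ0 | hγ0
  · -- the part cut off lies in the plane
    intro hpyr
    refine hyper _ f hf0 c ?_ hpyr.1
    rintro x ⟨hx, hxc⟩
    have h1 := hmax (x i) (hx i).1 (hx i).2
    have h2 : γ * x 2 ≤ 0 := mul_nonpos_of_nonpos_of_nonneg hγ0 (hx 2).1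
    rw [hf] at hxc ⊢
    linarith
  · have hmem : ∀ y z : ℝ, (y = 0 ∨ y = 1) → (z = 0 ∨ z = 1) →
        vv i j ε y z ∈ ({x ∈ cube | c ≤ f x} : Set V).extremePoints ℝ := by
      intro y z hy hz
      refine extreme_sub (fun x hx => hx.1) (extreme01 _ (v01 _ _ _ hε hy hz))
        ⟨vcube _ _ _ hε hy hz, ?_⟩
      rw [hf, vi, v2, hc]
      have : 0 ≤ γ * z := by
        rcases hz with rfl | rfl
        · simp
        · simpa using hγ0.le
      linarith
    have hadd : ∀ z : ℝ, vv i j ε 0 z + Pi.single j 1 = vv i j ε 1 z := by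
      intro z
      ext k
      simp only [vv, Pi.add_apply]
      by_cases hk : k = j
      · subst hk; simp [hij.symm]
      · by_cases hk2 : k = i <;> simp [hk, hk2, hij]
    refine not_pyramid _ j ?_ (vv i j ε 0 0) (vv i j ε 0 1) ?_ ?_ ?_ (hmem 0 0 (Or.inl rfl) (Or.inl rfl))
      ?_ (hmem 0 1 (Or.inl rfl) (Or.inr rfl)) ?_
    · rintro a ⟨ha, hac⟩
      have hfib : ∀ r : ℝ, 0 ≤ a j + r → a j + r ≤ 1 →
          a + r • (Pi.single j 1 : V) ∈ ({x ∈ cube | c ≤ f x} : Set V) := by
        intro r h0 h1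
        refine ⟨fun k => ?_, ?_⟩
        · by_cases hk : k = j
          · subst hk; simpa using ⟨h0, h1⟩
          · simpa [hk] using ha k
        · rw [map_add, map_smul, hfj, smul_zero, add_zero]; exact hac
      by_cases h0 : a j = 0
      · exact ⟨_, hfib 1 (by rw [h0]; norm_num) (by rw [h0]; norm_num), 1, one_ne_zero, rfl⟩
      · exact ⟨_, hfib (-a j) (by linarith) (by linarith), -a j, neg_ne_zero.2 h0, rfl⟩
    · intro h
      have := congrFun h 2
      rw [v2, v2] at this
      norm_num at this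
    · rw [hadd]
      intro h
      have := congrFun h 2
      rw [v2, v2] at this
      norm_num at this
    · rw [hadd]
      intro h
      have := congrFun h 2
      rw [v2, v2] at this
      norm_num at this
    · rw [hadd]; exact hmem 1 0 (Or.inr rfl) (Or.inl rfl)
    · rw [hadd]; exact hmem 1 1 (Or.inr rfl) (Or.inr rfl)

/-- no admissible cut of the cube -/
lemma noCut (D P'' : Set V) (hD : IsGDome D bot) (hDP : D ⊆ cube) : ¬ Cut bot D cube P'' := by
  rintro ⟨f, c, hf, ⟨e, he, hec⟩, hint, hpyr, -⟩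
  obtain ⟨⟨s, -, hDs, hDi⟩, hXD, -⟩ := hD
  have hDc : Convex ℝ D := hDs ▸ convex_convexHull ℝ s
  have hX : ∀ x ∈ bot, f x ≤ c := by
    intro x hx
    have hxD : x ∈ D := hXD.1.subset hx
    have h1 : x ∈ closure (interior D) := by
      have := hDc.closure_interior_eq_closure_of_nonempty_interior hDi
      rw [this]; exact subset_closure hxD
    have h2 : closure (interior D) ⊆ {y | f y ≤ c} :=
      closure_minimal (fun y hy => (hint y hy).le) (isClosed_le f.continuous continuous_const)
    exact h2 h1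
  have hne : ∃ x ∈ bot, f x = c := by
    obtain ⟨x, hx⟩ := he.2.1
    exact ⟨x, he.1.subset hx, hec x hx⟩
  by_cases h1 : f (Pi.single 1 1) = 0
  · by_cases h0 : f (Pi.single 0 1) = 0
    · -- horizontal plane
      obtain ⟨x, hx, hxc⟩ := hne
      have hx2 := hx.2
      rw [lin_eq, h0, h1, hx2] at hxc
      have hc : c = 0 := by linarith
      obtain ⟨u, hu⟩ := hDi
      have hu1 := hint u hu
      have hu2 := (hDP (interior_subset hu)) 2
      rw [lin_eq, h0, h1] at hu1
      have hγ : f (Pi.single 2 1) < 0 := by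
        by_contra hcon
        push Not at hcon
        have := mul_nonneg hcon hu2.1
        linarith
      refine hyper _ f hf c ?_ hpyr.1
      rintro y ⟨hy, hyc⟩
      rw [lin_eq, h0, h1] at hyc ⊢
      have := mul_nonpos_of_nonpos_of_nonneg hγ.le (hy 2).1
      linarith
    · exact noCut_dir 0 1 (by decide) (by decide) (by decide) f c h1 h0 hX hne hpyr
  · by_cases h0 : f (Pi.single 0 1) = 0
    · exact noCut_dir 1 0 (by decide) (by decide) (by decide) f c h0 h1 hX hne hpyr
    · -- the maximum over the bottom face is attained at one point only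
      have hlin := lin_eq f
      obtain ⟨α, hα⟩ : ∃ α, α = f (Pi.single 0 1) := ⟨_, rfl⟩
      obtain ⟨β, hβ⟩ : ∃ β, β = f (Pi.single 1 1) := ⟨_, rfl⟩
      rw [← hα] at h0 hlin
      rw [← hβ] at h1 hlin
      have hval : ∀ a b : ℝ, 0 ≤ a → a ≤ 1 → 0 ≤ b → b ≤ 1 → α * a + β * b ≤ c := by
        intro a b ha ha' hb hb'
        have hm : (![a, b, 0] : V) ∈ bot := by
          refine ⟨fun i => ?_, rfl⟩
          fin_cases i <;> simp [*]
        have := hX _ hm
        rw [hlin] at this
        simpa using this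
      have hpt : ∀ x ∈ e, x = ![if 0 < α then 1 else 0, if 0 < β then 1 else 0, 0] := by
        intro x hx
        have hxb := he.1.subset hx
        have hxc := hec x hx
        rw [hlin, hxb.2] at hxc
        obtain ⟨a1, a2⟩ := hxb.1 0
        obtain ⟨b1, b2⟩ := hxb.1 1
        have hx0 : x 0 = if 0 < α then 1 else 0 := by
          split_ifs with h
          · have := hval 1 (x 1) (by norm_num) le_rfl b1 b2
            have h3 : α * 1 ≤ α * x 0 := by linarith
            have h4 := le_of_mul_le_mul_left h3 h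
            linarith
          · have hneg : α < 0 := lt_of_le_of_ne (not_lt.1 h) h0
            have := hval 0 (x 1) le_rfl (by norm_num) b1 b2
            have h3 : 0 ≤ α * x 0 := by linarith
            by_contra hcon
            have hpos : 0 < x 0 := lt_of_le_of_ne a1 (Ne.symm hcon)
            have := mul_neg_of_neg_of_pos hneg hpos
            linarith
        have hx1 : x 1 = if 0 < β then 1 else 0 := by
          split_ifs with h
          · have := hval (x 0) 1 a1 a2 (by norm_num) le_rfl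
            have h3 : β * 1 ≤ β * x 1 := by linarith
            have h4 := le_of_mul_le_mul_left h3 h
            linarith
          · have hneg : β < 0 := lt_of_le_of_ne (not_lt.1 h) h1
            have := hval (x 0) 0 a1 a2 le_rfl (by norm_num)
            have h3 : 0 ≤ β * x 1 := by linarith
            by_contra hcon
            have hpos : 0 < x 1 := lt_of_le_of_ne b1 (Ne.symm hcon)
            have := mul_neg_of_neg_of_pos hneg hpos
            linarith
        ext i
        fin_cases i
        · exact hx0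
        · exact hx1
        · exact hxb.2
      have hsub : e.Subsingleton := fun x hx y hy => (hpt x hx).trans (hpt y hy).symm
      have hfr := he.2.2
      rw [vectorSpan_of_subsingleton ℝ hsub, finrank_bot] at hfr
      exact absurd hfr (by norm_num)

/-! ### A g-dome in the cube -/

/-- the apex -/
noncomputable def apex : V := fun _ => 1/2

/-- the square pyramid over the bottom face with apex at the centre of the cube -/
noncomputable def dome : Set V := convexHull ℝ (insert apex bv)

lemma bv_ne : bv.Nonempty := ⟨0, Or.inl rfl, Or.inl rfl, rfl⟩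

lemma bv_finite : bv.Finite := finite01.subset fun x hx i => by
  obtain ⟨h0, h1, h2⟩ := hx
  fin_cases i
  · exact h0
  · exact h1
  · exact Or.inl h2

lemma hull_bv : convexHull ℝ bv = bot := by
  have h1 : bv = Set.univ.pi ![{0, 1}, {0, 1}, {0}] := by
    ext x
    simp [bv, Set.mem_pi, Fin.forall_fin_succ]
  rw [h1, convexHull_pi]
  ext x
  simp only [Set.mem_pi, mem_univ, forall_true_left, Fin.forall_fin_succ, bot, cube, mem_ofPred_eq]
  simp [convexHull_pair, segment_eq_Icc]
  constructor
  · rintro ⟨h0, h1, h2⟩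
    exact ⟨⟨h0, h1, by rw [h2]; norm_num⟩, h2⟩
  · rintro ⟨⟨h0, h1, -⟩, h2⟩
    exact ⟨h0, h1, h2⟩

lemma mem_dome (x : V) : x ∈ dome ↔ ∃ y ∈ bot, ∃ m n : ℝ, 0 ≤ m ∧ 0 ≤ n ∧ m + n = 1 ∧
    m • apex + n • y = x := by
  unfold dome
  rw [convexHull_insert bv_ne, mem_convexJoin, hull_bv]
  constructor
  · rintro ⟨a, ha, y, hy, m, n, hm, hn, hmn, he⟩
    have ha' : a = apex := ha
    subst ha'
    exact ⟨y, hy, m, n, hm, hn, hmn, he⟩
  · rintro ⟨y, hy, m, n, hm, hn, hmn, he⟩
    exact ⟨apex, rfl, y, hy, m, n, hm, hn, hmn, he⟩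

lemma dome_sub : dome ⊆ cube := by
  refine convexHull_min ?_ cube_convex
  rintro x (rfl | hx)
  · intro i; norm_num [apex]
  · have : x ∈ bot := hull_bv ▸ subset_convexHull ℝ bv hx
    exact this.1

lemma dome_interior : (interior dome).Nonempty := by
  refine ⟨![1/2, 1/2, 1/4], ?_⟩
  rw [mem_interior]
  refine ⟨{x : V | (3/8 < x 0 ∧ x 0 < 5/8) ∧ (3/8 < x 1 ∧ x 1 < 5/8) ∧ 1/8 < x 2 ∧ x 2 < 3/8}, ?_, ?_, ?_⟩
  · rintro x ⟨⟨h1, h2⟩, ⟨h3, h4⟩, h5, h6⟩
    rw [mem_dome]
    have hpos : 0 < 1 - 2 * x 2 := by linarith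
    refine ⟨![(x 0 - x 2) / (1 - 2 * x 2), (x 1 - x 2) / (1 - 2 * x 2), 0], ⟨?_, rfl⟩, 2 * x 2,
      1 - 2 * x 2, by linarith, hpos.le, by ring, ?_⟩
    · intro i
      fin_cases i
      · show 0 ≤ (x 0 - x 2) / (1 - 2 * x 2) ∧ (x 0 - x 2) / (1 - 2 * x 2) ≤ 1
        rw [div_le_one hpos]
        exact ⟨div_nonneg (by linarith) hpos.le, by linarith⟩
      · show 0 ≤ (x 1 - x 2) / (1 - 2 * x 2) ∧ (x 1 - x 2) / (1 - 2 * x 2) ≤ 1
        rw [div_le_one hpos]
        exact ⟨div_nonneg (by linarith) hpos.le, by linarith⟩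
      · show (0:ℝ) ≤ 0 ∧ (0:ℝ) ≤ 1
        norm_num
    · ext i
      fin_cases i
      · show 2 * x 2 * (1/2) + (1 - 2 * x 2) * ((x 0 - x 2) / (1 - 2 * x 2)) = x 0
        rw [mul_div_cancel₀ _ hpos.ne']; ring
      · show 2 * x 2 * (1/2) + (1 - 2 * x 2) * ((x 1 - x 2) / (1 - 2 * x 2)) = x 1
        rw [mul_div_cancel₀ _ hpos.ne']; ring
      · show 2 * x 2 * (1/2) + (1 - 2 * x 2) * 0 = x 2
        ring
  · have c0 : Continuous fun x : V => x 0 := continuous_apply 0
    have c1 : Continuous fun x : V => x 1 := continuous_apply 1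
    have c2 : Continuous fun x : V => x 2 := continuous_apply 2
    exact ((isOpen_lt continuous_const c0).inter (isOpen_lt c0 continuous_const)).inter
      (((isOpen_lt continuous_const c1).inter (isOpen_lt c1 continuous_const)).inter
      ((isOpen_lt continuous_const c2).inter (isOpen_lt c2 continuous_const)))
  · show (3/8 < (1/2:ℝ) ∧ (1/2:ℝ) < 5/8) ∧ (3/8 < (1/2:ℝ) ∧ (1/2:ℝ) < 5/8) ∧ 1/8 < (1/4:ℝ) ∧ (1/4:ℝ) < 3/8
    norm_num

lemma bot_sub_dome : bot ⊆ dome := fun x hx => (mem_dome x).2 ⟨x, hx, 0, 1, le_rfl, zero_le_one, by norm_num, by simp⟩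

lemma dome_face : IsFaceDim 2 dome bot := by
  refine ⟨fun _ => ⟨-co 2, ?_⟩, bot_face.2.1, bot_face.2.2⟩
  ext x
  simp only [mem_ofPred_eq, neg_apply, co_apply]
  constructor
  · intro h
    refine ⟨bot_sub_dome h, fun y hy => ?_⟩
    have := (dome_sub hy 2).1
    rw [h.2]; linarith
  · rintro ⟨h1, h2⟩
    refine ⟨dome_sub h1, ?_⟩
    have h3 := h2 0 (bot_sub_dome ⟨fun i => by simp, rfl⟩)
    have h4 := (dome_sub h1 2).1
    simp only [Pi.zero_apply] at h3
    linarith

/-- every point with coordinates in `{0,1}` is exposed in every subset of the cube containing it -/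
lemma vertex_face (F : Set V) (hF : F ⊆ cube) (v : V) (hv : ∀ i, v i = 0 ∨ v i = 1) (hvF : v ∈ F) :
    IsFaceDim 0 F {v} := by
  refine ⟨fun _ => ⟨∑ i, (2 * v i - 1) • co i, ?_⟩, singleton_nonempty v, by simp⟩
  have hle : ∀ y ∈ cube, ∀ i, (2 * v i - 1) * y i ≤ (2 * v i - 1) * v i := by
    intro y hy i
    obtain ⟨h1, h2⟩ := hy i
    rcases hv i with h | h <;> rw [h] <;> linarith
  ext x
  simp only [mem_singleton_iff, mem_ofPred_eq]
  constructor
  · rintro rfl
    refine ⟨hvF, fun y hy => ?_⟩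
    simp only [sum_apply, smul_apply, co_apply, smul_eq_mul]
    exact Finset.sum_le_sum fun i _ => hle y (hF hy) i
  · rintro ⟨hx, hmax⟩
    have h1 := hmax v hvF
    simp only [sum_apply, smul_apply, co_apply, smul_eq_mul] at h1
    have h2 : ∀ i ∈ Finset.univ, (2 * v i - 1) * x i = (2 * v i - 1) * v i := by
      rw [← Finset.sum_eq_sum_iff_of_le fun i _ => hle x (hF hx) i]
      exact le_antisymm (Finset.sum_le_sum fun i _ => hle x (hF hx) i) h1
    ext i
    have h3 := h2 i (Finset.mem_univ i)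
    rcases hv i with h | h <;> rw [h] at h3 ⊢ <;> linarith

lemma dome_gdome : IsGDome dome bot := by
  refine ⟨⟨_, bv_finite.insert _, rfl, dome_interior⟩, dome_face, ?_⟩
  intro F hF _
  right
  obtain ⟨l, hl⟩ := hF.1 hF.2.1
  by_contra hcon
  push Not at hcon
  have hno : ∀ v ∈ bv, v ∉ F := by
    intro v hv hvF
    have h01 : ∀ i, v i = 0 ∨ v i = 1 := by
      obtain ⟨h0, h1, h2⟩ := hv
      intro i
      fin_cases i
      · exact h0
      · exact h1
      · exact Or.inl h2
    have hvb : v ∈ bot := hull_bv ▸ subset_convexHull ℝ bv hv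
    exact hcon v (vertex_face bot (fun x hx => hx.1) v h01 hvb)
      (vertex_face F (hF.1.subset.trans dome_sub) v h01 hvF)
  obtain ⟨x0, hx0⟩ := hF.2.1
  have hx0' := hx0
  rw [hl] at hx0'
  obtain ⟨M, hM⟩ : ∃ M, M = l x0 := ⟨_, rfl⟩
  have hlt : ∀ v ∈ bv, l v < M := by
    intro v hv
    have hvd : v ∈ dome := subset_convexHull ℝ _ (mem_insert_of_mem _ hv)
    refine lt_of_le_of_ne (hM ▸ hx0'.2 v hvd) fun h => hno v hv ?_
    rw [hl]
    exact ⟨hvd, fun y hy => by rw [h, hM]; exact hx0'.2 y hy⟩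
  have hlt' : ∀ y ∈ bot, l y < M := by
    intro y hy
    rw [← hull_bv] at hy
    have hconv : Convex ℝ {x : V | l x < M} := convex_halfSpace_lt l.toLinearMap.isLinear M
    exact convexHull_min (fun x hx => hlt x hx) hconv hy
  have hla : l apex ≤ M := hM ▸ hx0'.2 _ (subset_convexHull ℝ _ (mem_insert _ _))
  have hsub : F ⊆ {apex} := by
    intro x hx
    have hxd := hF.1.subset hx
    rw [hl] at hx
    have hxM : l x = M := le_antisymm (hM ▸ hx0'.2 x hx.1) (hM ▸ hx.2 x0 hx0'.1)
    obtain ⟨y, hy, m, n, hm, hn, hmn, rfl⟩ := (mem_dome x).1 hxd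
    have hy' := hlt' y hy
    rw [map_add, map_smul, map_smul, smul_eq_mul, smul_eq_mul] at hxM
    have hn0 : n = 0 := by
      by_contra hcon
      have hnpos : 0 < n := lt_of_le_of_ne hn (Ne.symm hcon)
      have h1 : n * l y < n * M := mul_lt_mul_of_pos_left hy' hnpos
      have h2 : m * l apex ≤ m * M := mul_le_mul_of_nonneg_left hla hm
      have h3 : m * M + n * M = M := by rw [← add_mul, hmn, one_mul]
      linarith
    subst hn0
    have hm1 : m = 1 := by linarith
    subst hm1
    simp
  have hfr := hF.2.2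
  rw [vectorSpan_of_subsingleton ℝ (subsingleton_singleton.anti hsub), finrank_bot] at hfr
  exact absurd hfr (by norm_num)

/-- For the cube `P` and its bottom face `X` there are g-domes with base `X` in `P`, but no admissible
cutting sequence starting from `P` ends at a g-dome with base `X`. -/
theorem result : ∃ P X : Set V, IsPolyhedron P ∧ IsFaceDim 2 P X ∧ (∃ D, IsGDome D X ∧ D ⊆ P) ∧
    ∀ D, IsGDome D X → D ⊆ P → ¬ Relation.ReflTransGen (Cut X D) P D := by
  refine ⟨cube, bot, cube_poly, bot_face, ⟨dome, dome_gdome, dome_sub⟩, ?_⟩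
  intro D hD hDP h
  rcases Relation.ReflTransGen.cases_head h with h | ⟨P'', h, -⟩
  · exact cube_not_gdome (h ▸ hD)
  · exact noCut D P'' hD hDP h

end Pool.Agent.Results.MP_3a21c3_co.CubeNoCut
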